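import Pool.Agent.Lib.MP_51bb46_lc.M.Defs

/-!
Few large gates (namespace `FrN`): variables of formulas with gates, derivations from a set of
axioms.
-/

set_option linter.unusedSectionVars false

namespace FrN

open Fr56 FrM

/-- the variables occurring in a formula -/
def vars {V : Type} : Gf V → Set V
  | .var v => {v}
  | .neg f => vars f
  | .and f g => vars f ∪ vars g
  | .or f g => vars f ∪ vars g
  | .gate _ _ a => ⋃ i, vars (a i)

/-- `π` is a derivation from the axioms `Ax` by sound schematic inferences of size at most `κ`: each
line is an axiom, or a substitution instance of the conclusion of such an inference whose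
correspondingly substituted hypotheses are all earlier lines. -/
def Derives {V : Type} (κ : ℝ) (Ax : Set (Gf V)) (π : List (Gf V)) : Prop :=
  ∀ i (hi : i < π.length), π[i] ∈ Ax ∨ ∃ r : Inf, r.Sound ∧ (r.size : ℝ) ≤ κ ∧
    ∃ σ : ℕ → Gf V, π[i] = r.concl.subst σ ∧
      ∀ A ∈ r.hyps, ∃ j, ∃ hj : j < i, π[j] = A.subst σ

end FrN
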