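import Pool.Agent.Lib.MP_51bb46_lc.M.Tow
import Pool.Agent.Lib.MP_51bb46_lc.G.FinalG

section

/-!
Few modular gates (namespace `FrM`): the family of purified formulas: cardinality, subformulas,
depth.
-/

set_option linter.unusedSectionVars false

namespace FrM

open Finset FrC FrG
open Fr56 (Fm)
open scoped Classical

section
variable {X : Type} (x0 : X)

/-- the purified formulas of `A` -/
def purs (A : Gf X) : Set (Fm X) := {f | ∃ u, f = pur x0 u A}

theorem purs_eq (A : Gf X) : purs x0 A =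
    Set.range fun v : A.gates → Bool => pur x0 (fun g => if h : g ∈ A.gates then v ⟨g, h⟩ else false) A := by
  ext f
  constructor
  · rintro ⟨u, rfl⟩
    refine ⟨fun g => u g, ?_⟩
    refine pur_congr A fun g hg => ?_
    simp only [dif_pos hg]
  · rintro ⟨v, rfl⟩
    exact ⟨_, rfl⟩

theorem purs_finite (A : Gf X) : (purs x0 A).Finite := by
  have : Finite A.gates := A.gates_finite
  rw [purs_eq]
  exact Set.finite_range _

theorem ncard_purs (A : Gf X) : (purs x0 A).ncard ≤ 2 ^ A.gates.ncard := by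
  have : Fintype A.gates := A.gates_finite.fintype
  rw [purs_eq, ← Set.image_univ]
  refine (Set.ncard_image_le Set.finite_univ).trans ?_
  rw [Set.ncard_univ, Nat.card_eq_fintype_card, Fintype.card_fun, Fintype.card_bool]
  refine le_of_eq ?_
  congr 1
  rw [← Nat.card_eq_fintype_card]
  rfl

variable {x0}

theorem pc_subs {f g : Fm X} (hf : f ∈ pc x0) (hg : g ∈ f.subs) : g ∈ pc x0 := by
  unfold pc at hf ⊢
  simp only [Finset.mem_insert, Finset.mem_singleton] at hf ⊢
  rcases hf with rfl | rfl | rfl | rfl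
  · simp only [Fm.subs, List.mem_singleton] at hg
    exact Or.inl hg
  · simp only [Fm.subs, List.mem_cons, List.not_mem_nil, or_false] at hg
    tauto
  · simp only [cst, Fm.subs, List.mem_cons, List.mem_append, List.not_mem_nil, or_false] at hg ⊢
    tauto
  · simp only [cst, Fm.subs, List.mem_cons, List.mem_append, List.not_mem_nil, or_false] at hg ⊢
    tauto

theorem cst_mem_pc (b : Bool) : cst x0 b ∈ pc x0 := by
  unfold pc
  cases b <;> simp

/-- subformulas of purified formulas -/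
theorem subs_pur {u : Gf X → Bool} {A : Gf X} {f : Fm X} (h : f ∈ (pur x0 u A).subs) :
    (∃ B ∈ A.subs, f = pur x0 u B) ∨ f ∈ pc x0 := by
  induction A with
  | var v =>
    simp only [pur, Fm.subs, List.mem_singleton] at h
    exact Or.inl ⟨.var v, Gf.self_mem_subs _, h⟩
  | neg A ih =>
    simp only [pur, Fm.subs, List.mem_cons] at h
    rcases h with h | h
    · exact Or.inl ⟨.neg A, Gf.self_mem_subs _, h⟩
    · rcases ih h with ⟨B, hB, h1⟩ | h1
      · exact Or.inl ⟨B, by simp only [Gf.subs, Set.mem_insert_iff]; exact Or.inr hB, h1⟩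
      · exact Or.inr h1
  | and A1 A2 ih1 ih2 =>
    simp only [pur, Fm.subs, List.mem_cons, List.mem_append] at h
    rcases h with h | h | h
    · exact Or.inl ⟨.and A1 A2, Gf.self_mem_subs _, h⟩
    · rcases ih1 h with ⟨B, hB, h1⟩ | h1
      · exact Or.inl ⟨B, by
          simp only [Gf.subs, Set.mem_insert_iff, Set.mem_union]; exact Or.inr (Or.inl hB), h1⟩
      · exact Or.inr h1
    · rcases ih2 h with ⟨B, hB, h1⟩ | h1
      · exact Or.inl ⟨B, by
          simp only [Gf.subs, Set.mem_insert_iff, Set.mem_union]; exact Or.inr (Or.inr hB), h1⟩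
      · exact Or.inr h1
  | or A1 A2 ih1 ih2 =>
    simp only [pur, Fm.subs, List.mem_cons, List.mem_append] at h
    rcases h with h | h | h
    · exact Or.inl ⟨.or A1 A2, Gf.self_mem_subs _, h⟩
    · rcases ih1 h with ⟨B, hB, h1⟩ | h1
      · exact Or.inl ⟨B, by
          simp only [Gf.subs, Set.mem_insert_iff, Set.mem_union]; exact Or.inr (Or.inl hB), h1⟩
      · exact Or.inr h1
    · rcases ih2 h with ⟨B, hB, h1⟩ | h1
      · exact Or.inl ⟨B, by
          simp only [Gf.subs, Set.mem_insert_iff, Set.mem_union]; exact Or.inr (Or.inr hB), h1⟩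
      · exact Or.inr h1
  | gate m φ a _ =>
    exact Or.inr (pc_subs (cst_mem_pc _) h)

/-- the family of purified formulas -/
theorem exists_family (x0 : X) {s : Set (Gf X)} (hs : s.Finite)
    (hcl : ∀ A ∈ s, ∀ B ∈ A.subs, B ∈ s) {w : ℕ} (hw : ∀ A ∈ s, A.gates.ncard ≤ w) :
    ∃ Fs : Finset (Fm X), Fs.card ≤ s.ncard * 2 ^ w + 4 ∧ (∀ f ∈ Fs, ∀ g ∈ f.subs, g ∈ Fs) ∧
      (∀ f ∈ pc x0, f ∈ Fs) ∧ (∀ A ∈ s, ∀ u, pur x0 u A ∈ Fs) ∧
      ∀ f ∈ Fs, f ∈ pc x0 ∨ ∃ A ∈ s, ∃ u, f = pur x0 u A := by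
  set Fs : Finset (Fm X) := (hs.toFinset.biUnion fun A => (purs_finite x0 A).toFinset) ∪ pc x0
    with hFs
  have hmem : ∀ f, f ∈ Fs ↔ (∃ A ∈ s, ∃ u, f = pur x0 u A) ∨ f ∈ pc x0 := by
    intro f
    rw [hFs, Finset.mem_union, Finset.mem_biUnion]
    constructor
    · rintro (⟨A, hA, hf⟩ | h)
      · exact Or.inl ⟨A, (Set.Finite.mem_toFinset hs).1 hA,
          (Set.Finite.mem_toFinset (purs_finite x0 A)).1 hf⟩
      · exact Or.inr h
    · rintro (⟨A, hA, hf⟩ | h)
      · exact Or.inl ⟨A, (Set.Finite.mem_toFinset hs).2 hA, (Set.Finite.mem_toFinset _).2 hf⟩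
      · exact Or.inr h
  refine ⟨Fs, ?_, ?_, fun f hf => (hmem f).2 (Or.inr hf),
    fun A hA u => (hmem _).2 (Or.inl ⟨A, hA, u, rfl⟩), fun f hf => ((hmem f).1 hf).symm⟩
  · refine (Finset.card_union_le _ _).trans (Nat.add_le_add ?_ (card_pc x0))
    refine (Finset.card_biUnion_le_card_mul _ _ (2 ^ w) fun A hA => ?_).trans ?_
    · rw [← Set.ncard_eq_toFinset_card (purs x0 A) (purs_finite x0 A)]
      exact (ncard_purs x0 A).trans (Nat.pow_le_pow_right (by norm_num)
        (hw A ((Set.Finite.mem_toFinset hs).1 hA)))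
    · rw [← Set.ncard_eq_toFinset_card s hs]
  · intro f hf g hg
    rw [hmem] at hf ⊢
    rcases hf with ⟨A, hA, u, rfl⟩ | hf
    · rcases subs_pur hg with ⟨B, hB, rfl⟩ | h
      · exact Or.inl ⟨B, hcl A hA B hB, u, rfl⟩
      · exact Or.inr h
    · exact Or.inr (pc_subs hf hg)

/-! ### depth -/

theorem rk_pur {B : Fm X → Prop} (hB : Bas B) (hc : ∀ b, B (cst x0 b)) (u : Gf X → Bool)
    (A : Gf X) (b : Bool) : rk B (pur x0 u A) b ≤ A.alt b := by
  induction A generalizing b with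
  | var v =>
    simp only [pur]
    rw [rk_small hB _ (hB.var v)]
    exact Nat.zero_le _
  | neg f ih => exact ih (!b)
  | and f g ih1 ih2 =>
    have h1 := ih1 false
    have h2 := ih2 false
    simp only [pur, FrG.rk, Gf.alt]
    split_ifs <;> omega
  | or f g ih1 ih2 =>
    have h1 := ih1 true
    have h2 := ih2 true
    simp only [pur, FrG.rk, Gf.alt]
    split_ifs <;> omega
  | gate m φ a _ =>
    simp only [pur]
    rw [rk_small hB _ (hc _)]
    exact Nat.zero_le _

theorem lev_pur {B : Fm X → Prop} (hB : Bas B) (hc : ∀ b, B (cst x0 b)) (u : Gf X → Bool)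
    (A : Gf X) : lev B (pur x0 u A) ≤ A.depth := by
  have h1 := rk_pur hB hc u A true
  have h2 := rk_pur hB hc u A false
  unfold FrG.lev Gf.depth
  omega

theorem alt_or_le (f g : Gf X) (b : Bool) : max (f.alt true) (g.alt true) ≤ (Gf.or f g).alt b := by
  simp only [Gf.alt]
  split_ifs <;> omega

theorem alt_and_le (f g : Gf X) (b : Bool) :
    max (f.alt false) (g.alt false) ≤ (Gf.and f g).alt b := by
  simp only [Gf.alt]
  split_ifs <;> omega

/-- all subformulas of an admissible line have small depth -/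
theorem depth_subs {d : ℕ} {A B : Gf X} (hB : B ∈ A.subs) (hA : A.depth ≤ d)
    (harg : ∀ m φ a, Gf.gate m φ a ∈ A.subs → ∀ i, (a i).depth ≤ d) : B.depth ≤ d := by
  induction A with
  | var v =>
    simp only [Gf.subs, Set.mem_singleton_iff] at hB
    rw [hB]
    exact hA
  | neg f ih =>
    simp only [Gf.subs, Set.mem_insert_iff] at hB
    rcases hB with rfl | hB
    · exact hA
    · refine ih hB ?_ fun m φ a ha => harg m φ a ?_
      · unfold Gf.depth at hA ⊢
        simp only [Gf.alt, Bool.not_true, Bool.not_false] at hA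
        omega
      · simp only [Gf.subs, Set.mem_insert_iff]
        exact Or.inr ha
  | and f g ihf ihg =>
    simp only [Gf.subs, Set.mem_insert_iff, Set.mem_union] at hB
    have h1 := alt_and_le f g true
    have h2 := alt_and_le f g false
    unfold Gf.depth at hA
    rcases hB with rfl | hB | hB
    · exact hA
    · refine ihf hB ?_ fun m φ a ha => harg m φ a ?_
      · unfold Gf.depth
        omega
      · simp only [Gf.subs, Set.mem_insert_iff, Set.mem_union]
        exact Or.inr (Or.inl ha)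
    · refine ihg hB ?_ fun m φ a ha => harg m φ a ?_
      · unfold Gf.depth
        omega
      · simp only [Gf.subs, Set.mem_insert_iff, Set.mem_union]
        exact Or.inr (Or.inr ha)
  | or f g ihf ihg =>
    simp only [Gf.subs, Set.mem_insert_iff, Set.mem_union] at hB
    have h1 := alt_or_le f g true
    have h2 := alt_or_le f g false
    unfold Gf.depth at hA
    rcases hB with rfl | hB | hB
    · exact hA
    · refine ihf hB ?_ fun m φ a ha => harg m φ a ?_
      · unfold Gf.depth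
        omega
      · simp only [Gf.subs, Set.mem_insert_iff, Set.mem_union]
        exact Or.inr (Or.inl ha)
    · refine ihg hB ?_ fun m φ a ha => harg m φ a ?_
      · unfold Gf.depth
        omega
      · simp only [Gf.subs, Set.mem_insert_iff, Set.mem_union]
        exact Or.inr (Or.inr ha)
  | gate m φ a ih =>
    simp only [Gf.subs, Set.mem_insert_iff, Set.mem_iUnion] at hB
    rcases hB with rfl | ⟨i, hB⟩
    · exact hA
    · refine ih i hB (harg m φ a (Gf.self_mem_subs _) i) fun m' φ' a' ha' => harg m' φ' a' ?_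
      simp only [Gf.subs, Set.mem_insert_iff, Set.mem_iUnion]
      exact Or.inr ⟨i, ha'⟩

end

end FrM
end

section

/-!
Few large gates (namespace `FrN`): variables of formulas with gates; the valuation of the formulas
whose atoms are formulas with gates and few variables.
-/

set_option linter.unusedSectionVars false

namespace FrN

open Finset FrM FrS
open Fr56 (Fm)
open scoped Classical

/-! ### variables -/

section
variable {X W : Type}

theorem vars_finite (A : Gf X) : (vars A).Finite := by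
  induction A with
  | var v => exact Set.finite_singleton _
  | neg f ih => exact ih
  | and f g ihf ihg => exact ihf.union ihg
  | or f g ihf ihg => exact ihf.union ihg
  | gate m φ a ih => exact Set.finite_iUnion ih

/-- the variables, as a finite set -/
noncomputable def vfs (A : Gf X) : Finset X := (vars_finite A).toFinset

theorem mem_vfs {A : Gf X} {x : X} : x ∈ vfs A ↔ x ∈ vars A := Set.Finite.mem_toFinset _

theorem card_vfs (A : Gf X) : (vfs A).card = (vars A).ncard :=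
  (Set.ncard_eq_toFinset_card _ _).symm

theorem vars_subs {A B : Gf X} (h : B ∈ A.subs) : vars B ⊆ vars A := by
  induction A with
  | var v =>
    simp only [Gf.subs, Set.mem_singleton_iff] at h
    rw [h]
  | neg f ih =>
    simp only [Gf.subs, Set.mem_insert_iff] at h
    rcases h with rfl | h
    · exact subset_rfl
    · exact ih h
  | and f g ihf ihg =>
    simp only [Gf.subs, Set.mem_insert_iff, Set.mem_union] at h
    rcases h with rfl | h | h
    · exact subset_rfl
    · exact (ihf h).trans Set.subset_union_left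
    · exact (ihg h).trans Set.subset_union_right
  | or f g ihf ihg =>
    simp only [Gf.subs, Set.mem_insert_iff, Set.mem_union] at h
    rcases h with rfl | h | h
    · exact subset_rfl
    · exact (ihf h).trans Set.subset_union_left
    · exact (ihg h).trans Set.subset_union_right
  | gate m φ a ih =>
    simp only [Gf.subs, Set.mem_insert_iff, Set.mem_iUnion] at h
    rcases h with rfl | ⟨i, h⟩
    · exact subset_rfl
    · exact (ih i h).trans (Set.subset_iUnion (fun i => vars (a i)) i)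

theorem card_vfs_subs {A B : Gf X} (h : B ∈ A.subs) : (vfs B).card ≤ (vfs A).card := by
  refine Finset.card_le_card fun x hx => ?_
  rw [mem_vfs] at hx ⊢
  exact vars_subs h hx

theorem eval_congr {A : Gf X} {x y : X → Bool} (h : ∀ v ∈ vars A, x v = y v) :
    A.eval x = A.eval y := by
  induction A with
  | var v => exact h v rfl
  | neg f ih => simp only [Gf.eval]; rw [ih h]
  | and f g ihf ihg =>
    simp only [Gf.eval]
    rw [ihf fun v hv => h v (Or.inl hv), ihg fun v hv => h v (Or.inr hv)]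
  | or f g ihf ihg =>
    simp only [Gf.eval]
    rw [ihf fun v hv => h v (Or.inl hv), ihg fun v hv => h v (Or.inr hv)]
  | gate m φ a ih =>
    simp only [Gf.eval]
    congr 1
    funext i
    exact ih i fun v hv => h v (Set.mem_iUnion.2 ⟨i, hv⟩)

theorem vars_ren (τ : X → W) (A : Gf X) : vars (A.ren τ) = τ '' vars A := by
  unfold Gf.ren
  induction A with
  | var v => simp [Gf.subst, vars]
  | neg f ih => exact ih
  | and f g ihf ihg => simp only [Gf.subst, vars, ihf, ihg, Set.image_union]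
  | or f g ihf ihg => simp only [Gf.subst, vars, ihf, ihg, Set.image_union]
  | gate m φ a ih => simp only [Gf.subst, vars, ih, Set.image_iUnion]

theorem vars_ofFm (f : Fm X) : vars (Gf.ofFm f) = f.vars := by
  induction f with
  | var v => rfl
  | neg f ih => exact ih
  | and f g ihf ihg => simp only [Gf.ofFm, vars, Fm.vars, ihf, ihg]
  | or f g ihf ihg => simp only [Gf.ofFm, vars, Fm.vars, ihf, ihg]

theorem eval_ofFm (f : Fm X) (x : X → Bool) : (Gf.ofFm f).eval x = f.eval x := by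
  induction f with
  | var v => rfl
  | neg f ih => simp only [Gf.ofFm, Gf.eval, Fm.eval, ih]
  | and f g ihf ihg => simp only [Gf.ofFm, Gf.eval, Fm.eval, ihf, ihg]
  | or f g ihf ihg => simp only [Gf.ofFm, Gf.eval, Fm.eval, ihf, ihg]

theorem vfs_ofFm (f : Fm X) : vfs (Gf.ofFm f) = FrG.vf f := by
  ext x
  rw [mem_vfs, vars_ofFm, FrG.mem_vf]

/-- the formulas with at most `s` variables -/
theorem lowC_vfs {s : ℕ} (hs : 1 ≤ s) : LowC fun A : Gf X => (vfs A).card ≤ s where
  var v := by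
    have h1 : (vars (Gf.var v)).ncard = 1 := Set.ncard_singleton v
    rw [card_vfs, h1]
    exact hs
  cg b := by
    have h1 : vars (cg b : Gf X) = ∅ := by
      unfold cg vars
      simp
    rw [card_vfs, h1, Set.ncard_empty]
    exact Nat.zero_le _
  neg f h := (card_vfs_subs (by
    simp only [Gf.subs, Set.mem_insert_iff]
    exact Or.inr (Gf.self_mem_subs _))).trans h
  and f g h := ⟨(card_vfs_subs (by
    simp only [Gf.subs, Set.mem_insert_iff, Set.mem_union]
    exact Or.inr (Or.inl (Gf.self_mem_subs _)))).trans h, (card_vfs_subs (by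
    simp only [Gf.subs, Set.mem_insert_iff, Set.mem_union]
    exact Or.inr (Or.inr (Gf.self_mem_subs _)))).trans h⟩
  or f g h := ⟨(card_vfs_subs (by
    simp only [Gf.subs, Set.mem_insert_iff, Set.mem_union]
    exact Or.inr (Or.inl (Gf.self_mem_subs _)))).trans h, (card_vfs_subs (by
    simp only [Gf.subs, Set.mem_insert_iff, Set.mem_union]
    exact Or.inr (Or.inr (Gf.self_mem_subs _)))).trans h⟩
  gate m φ a h i := (card_vfs_subs (by
    simp only [Gf.subs, Set.mem_insert_iff, Set.mem_iUnion]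
    exact Or.inr ⟨i, Gf.self_mem_subs _⟩)).trans h

end

/-! ### literals -/

/-- iterated negations of variables -/
def Lit {X : Type} : Fm X → Prop
  | .var _ => True
  | .neg f => Lit f
  | .and _ _ => False
  | .or _ _ => False

theorem bas_lit {X : Type} : FrG.Bas (Lit : Fm X → Prop) where
  var _ := trivial
  neg _ := Iff.rfl
  and _ _ h := absurd h (by simp [Lit])
  or _ _ h := absurd h (by simp [Lit])

/-! ### the valuation -/

/-- the variables of the atoms of a formula -/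
noncomputable def supp {D : ℕ} : Fm (Gf (E D)) → Finset (E D)
  | .var A => vfs A
  | .neg f => supp f
  | .and f g => supp f ∪ supp g
  | .or f g => supp f ∪ supp g

section
variable {V E' : Type} [Fintype V] [Fintype E'] [DecidableEq V] [DecidableEq E'] {G : FrC.Gph V E'}
  (Fr : FrC.Frame G) (v0 : V) {D n T : ℕ} (ν : FrD.Nmb V E' n) (hT : 0 < T) (a : Asg D n T)

/-- the vertices on which the fine edges in `s` depend -/
noncomputable def RVs (G : FrC.Gph V E') (s : Finset (E D)) : Finset V :=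
  ((edges D n).filter fun e => FrG.Hit hT s e a).biUnion (FrD.rv G ν)

/-- the fine assignment given by a coarse one -/
noncomputable def xf (G : FrC.Gph V E') (y : E' → ZMod 2) (z : E D) : Bool :=
  tbit ((mkR hT a 0).x (FrD.X G ν D v0 y) z)

theorem RVs_mono {s s' : Finset (E D)} (h : s ⊆ s') : RVs ν hT a G s ⊆ RVs ν hT a G s' := by
  refine Finset.biUnion_subset_biUnion_of_subset_left _ fun e he => ?_
  rw [Finset.mem_filter] at he ⊢
  obtain ⟨h1, z, hz, h2⟩ := he
  exact ⟨h1, z, h hz, h2⟩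

theorem card_RVs {s : Finset (E D)} {K : ℕ}
    (h : ((edges D n).filter fun e => FrG.Hit hT s e a).card ≤ K) :
    (RVs ν hT a G s).card ≤ 4 * K := by
  refine (Finset.card_biUnion_le_card_mul _ _ 4 fun e _ => FrD.card_rv G ν e).trans ?_
  rw [mul_comm]
  exact Nat.mul_le_mul_left _ h

theorem xf_congr {s : Finset (E D)} {U : Finset V} (hU : RVs ν hT a G s ⊆ U) {y y' : E' → ZMod 2}
    (hag : G.Agree U y y') {z : E D} (hz : z ∈ s) :
    xf v0 ν hT a G y z = xf v0 ν hT a G y' z := by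
  unfold xf
  congr 1
  unfold Rst.x
  rw [Pi.add_apply, Pi.add_apply]
  congr 1
  unfold Rst.P
  refine Finset.sum_congr rfl fun e he => ?_
  by_cases h0 : (mkR hT a 0).Pe e z = 0
  · rw [h0, mul_zero, mul_zero]
  · have h1 : FrD.rv G ν e ⊆ U := by
      refine Finset.Subset.trans ?_ hU
      unfold RVs
      refine Finset.subset_biUnion_of_mem (FrD.rv G ν) ?_
      exact Finset.mem_filter.2 ⟨he, z, hz, h0⟩
    rw [FrD.X_congr G ν h1 hag]

theorem eval_xf_congr {A : Gf (E D)} {U : Finset V} (hU : RVs ν hT a G (vfs A) ⊆ U)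
    {y y' : E' → ZMod 2} (hag : G.Agree U y y') :
    A.eval (xf v0 ν hT a G y) = A.eval (xf v0 ν hT a G y') :=
  eval_congr fun _ hz => xf_congr v0 ν hT a hU hag (mem_vfs.2 hz)

/-- the local truth relation -/
def nQ (f : Fm (Gf (E D))) (b : Bool) (U : Finset V) (y : E' → ZMod 2) : Prop :=
  RVs ν hT a G (supp f) ⊆ U ∧ f.eval (fun A => A.eval (xf v0 ν hT a G y)) = b

theorem supp_sub {f : Fm (Gf (E D))} {A : Gf (E D)} (h : A ∈ f.vars) : vfs A ⊆ supp f := by
  induction f with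
  | var B =>
    have h1 : A = B := h
    rw [h1]
    exact Finset.Subset.refl _
  | neg f ih => exact ih h
  | and f g ihf ihg =>
    rcases h with h | h
    · exact (ihf h).trans Finset.subset_union_left
    · exact (ihg h).trans Finset.subset_union_right
  | or f g ihf ihg =>
    rcases h with h | h
    · exact (ihf h).trans Finset.subset_union_left
    · exact (ihg h).trans Finset.subset_union_right

/-- the valuation -/
def nVal (Φ : Set (Fm (Gf (E D)))) (cap : ℕ) : FrC.Valn Fr v0 (Gf (E D)) Φ cap where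
  Q := nQ v0 ν hT a
  mono := by
    intro f _ b U U' y y' hU _ hQ hag _
    obtain ⟨h1, h2⟩ := hQ
    refine ⟨h1.trans hU, ?_⟩
    rw [← h2]
    refine Fm.eval_congr fun A hA => ?_
    exact (eval_xf_congr v0 ν hT a ((RVs_mono ν hT a (supp_sub hA)).trans h1) hag).symm
  uniq := by
    intro f _ U y _ _ h1 h2
    have := h1.2.symm.trans h2.2
    exact Bool.noConfusion this
  neg := by
    intro f _ _ b b' U y _ _ h1 h2
    rw [← h1.2, ← h2.2]
    rfl
  and := by
    intro f g _ _ _ b b' b'' U y _ _ h1 h2 h3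
    rw [← h1.2, ← h2.2, ← h3.2]
    rfl
  or := by
    intro f g _ _ _ b b' b'' U y _ _ h1 h2 h3
    rw [← h1.2, ← h2.2, ← h3.2]
    rfl

theorem nVal_dcds (Φ : Set (Fm (Gf (E D)))) (cap : ℕ) {K : ℕ}
    (hK : ∀ f ∈ Φ, ((edges D n).filter fun e => FrG.Hit hT (supp f) e a).card ≤ K) :
    (nVal Fr v0 ν hT a Φ cap).Dcds (4 * K) := by
  intro f hf y _
  have h := FrC.Dec.node (Fr := Fr) (v0 := v0) (Q := nQ v0 ν hT a f) (k := 0) (n := 4 * K)
    (U := ∅) (y := y) (RVs ν hT a G (supp f)) (card_RVs ν hT a (hK f hf))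
    (fun y' _ _ => FrC.Dec.leaf _ ⟨Finset.subset_union_right, rfl⟩)
  rw [Nat.add_zero] at h
  exact h

/-- the exact values of the atoms -/
theorem nVal_jn (Φ : Set (Fm (Gf (E D)))) (cap : ℕ) {K : ℕ} (base : Set (Fm (Gf (E D))))
    (hb : ∀ f ∈ base, ∃ A, f = .var A)
    (hK : ∀ f ∈ base, ((edges D n).filter fun e => FrG.Hit hT (supp f) e a).card ≤ K)
    {K' : ℕ} (hK' : 4 * K ≤ K') :
    Jn (nVal Fr v0 ν hT a Φ cap) base
      (fun f y => f.eval fun A => A.eval (xf v0 ν hT a G y)) K' := by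
  intro f hf
  obtain ⟨A, rfl⟩ := hb f hf
  refine ⟨RVs ν hT a G (supp (.var A)), (card_RVs ν hT a (hK _ hf)).trans hK', ?_, ?_⟩
  · intro y y' hag
    exact eval_xf_congr v0 ν hT a (Finset.Subset.refl _) hag
  · intro b U y _ _ _ hQ
    exact hQ.2.symm

/-- clauses of the fine Tseitin formula -/
def IsCl (D N : ℕ) (f : Fm (E D)) : Prop := ∃ p ∈ clauses D N, f = clause (0, 0) N p.1 p.2

/-- conjunctions of clauses are true at the states at which they are revealed -/
theorem cl_true {N : ℕ} (hn : 2 ≤ n) (hN : n * T ≤ N) {f : Fm (E D)}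
    (hf : FrG.AndOf (IsCl D N) f) {U : Finset V} {y : E' → ZMod 2} (hok : Fr.Ok v0 U y)
    (hU : RVs ν hT a G (FrG.vf f) ⊆ U) : f.eval (xf v0 ν hT a G y) = true := by
  induction hf with
  | base f h =>
    obtain ⟨p, hp, rfl⟩ := h
    have h1 : ¬ FrG.gQ v0 ν hT a (clause (0, 0) N p.1 p.2) false U y :=
      FrG.gVal_clause Fr v0 ν hT a (∅ : Set (Fm (E D))) 0 U.card hn hN hp U y le_rfl hok
    by_contra hcon
    rw [Bool.not_eq_true] at hcon
    refine h1 ⟨?_, hcon⟩
    unfold FrG.RV FrG.hset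
    exact hU
  | and f g _ _ ihf ihg =>
    have s1 : FrG.vf f ⊆ FrG.vf (f.and g) := by
      intro z hz
      rw [FrG.mem_vf] at hz ⊢
      exact Or.inl hz
    have s2 : FrG.vf g ⊆ FrG.vf (f.and g) := by
      intro z hz
      rw [FrG.mem_vf] at hz ⊢
      exact Or.inr hz
    have t1 := ihf ((RVs_mono ν hT a s1).trans hU)
    have t2 := ihg ((RVs_mono ν hT a s2).trans hU)
    show (f.eval _ && g.eval _) = true
    rw [t1, t2]
    rfl

/-- the purified Tseitin formula is a conjunction of locally true atoms -/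
theorem pur_andOf (Φ : Set (Fm (Gf (E D)))) (cap w : ℕ) {N s0 : ℕ} (hn : 2 ≤ n) (hN : n * T ≤ N)
    (hs1 : 2 * (D + 3) ≤ s0) (u : Gf (E D) → Bool) {f : Fm (E D)}
    (hf : FrG.AndOf (IsCl D N) f) :
    FrG.AndOf (fun g => Lit g ∧ (nVal Fr v0 ν hT a Φ cap).True' w g)
      (pur (fun A => (vfs A).card ≤ s0) u (Gf.ofFm f)) := by
  have hatom : ∀ f, FrG.AndOf (IsCl D N) f → Lit (Fm.var (Gf.ofFm f)) ∧
      (nVal Fr v0 ν hT a Φ cap).True' w (.var (Gf.ofFm f)) := by
    intro f hf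
    refine ⟨trivial, fun U y _ hok hQ => ?_⟩
    obtain ⟨h1, h2⟩ := hQ
    have h3 : RVs ν hT a G (FrG.vf f) ⊆ U := by
      have h4 : supp (Fm.var (Gf.ofFm f)) = FrG.vf f := vfs_ofFm f
      rwa [h4] at h1
    have h4 := cl_true Fr v0 ν hT a hn hN hf hok h3
    have h5 : (Gf.ofFm f).eval (xf v0 ν hT a G y) = false := h2
    rw [eval_ofFm, h4] at h5
    exact Bool.noConfusion h5
  induction hf with
  | base f h =>
    have h1 : (vfs (Gf.ofFm f)).card ≤ s0 := by
      obtain ⟨p, hp, rfl⟩ := h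
      rw [vfs_ofFm]
      exact (FrG.card_vf_le _).trans ((leaves_clause (0, 0) N (v := p.1) p.2).trans hs1)
    rw [pur_low u (Lw := fun A : Gf (E D) => (vfs A).card ≤ s0) h1]
    exact FrG.AndOf.base _ (hatom f (FrG.AndOf.base f h))
  | and f g hf hg ihf ihg =>
    by_cases h1 : (vfs (Gf.ofFm (f.and g))).card ≤ s0
    · rw [pur_low u (Lw := fun A : Gf (E D) => (vfs A).card ≤ s0) h1]
      exact FrG.AndOf.base _ (hatom _ (FrG.AndOf.and f g hf hg))
    · have h3 : pur (fun A => (vfs A).card ≤ s0) u (Gf.ofFm (f.and g)) =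
          .and (pur (fun A => (vfs A).card ≤ s0) u (Gf.ofFm f))
            (pur (fun A => (vfs A).card ≤ s0) u (Gf.ofFm g)) := by
        have h4 : ¬ (vfs (Gf.and (Gf.ofFm f) (Gf.ofFm g))).card ≤ s0 := h1
        show pur (fun A => (vfs A).card ≤ s0) u (Gf.and (Gf.ofFm f) (Gf.ofFm g)) = _
        simp only [pur, if_neg h4]
      rw [h3]
      exact FrG.AndOf.and _ _ ihf ihg

theorem andOf_Ts (D : ℕ) {N : ℕ} (hN : 2 ≤ N) : FrG.AndOf (IsCl D N) (Ts D N) :=
  Ts_induction hN (fun F => FrG.AndOf (IsCl D N) F)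
    (fun p hp _ => FrG.AndOf.base _ ⟨p, hp, rfl⟩)
    (fun f g _ h1 h2 => FrG.AndOf.and f g h1 h2)

end

end FrN
end

section

/-!
Few large gates (namespace `FrN`): the family of purified formulas: cardinality, subformulas,
atoms, depth; lines that arise by substituting low formulas.
-/

set_option linter.unusedSectionVars false

namespace FrN

open Finset FrC FrM
open Fr56 (Fm)
open scoped Classical

section
variable {X : Type} (Lw : Gf X → Prop)

/-- the purified formulas of `A` -/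
def purs (A : Gf X) : Set (Fm (Gf X)) := {f | ∃ u, f = pur Lw u A}

theorem purs_eq (A : Gf X) : purs Lw A =
    Set.range fun v : bg Lw A → Bool =>
      pur Lw (fun g => if h : g ∈ bg Lw A then v ⟨g, h⟩ else false) A := by
  ext f
  constructor
  · rintro ⟨u, rfl⟩
    refine ⟨fun g => u g, ?_⟩
    refine pur_congr A fun g hg => ?_
    simp only [dif_pos hg]
  · rintro ⟨v, rfl⟩
    exact ⟨_, rfl⟩

theorem purs_finite (A : Gf X) : (purs Lw A).Finite := by
  have : Finite (bg Lw A) := bg_finite A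
  rw [purs_eq]
  exact Set.finite_range _

theorem ncard_purs (A : Gf X) : (purs Lw A).ncard ≤ 2 ^ (bg Lw A).ncard := by
  have : Fintype (bg Lw A) := (bg_finite A).fintype
  rw [purs_eq, ← Set.image_univ]
  refine (Set.ncard_image_le Set.finite_univ).trans ?_
  rw [Set.ncard_univ, Nat.card_eq_fintype_card, Fintype.card_fun, Fintype.card_bool]
  refine le_of_eq ?_
  congr 1
  rw [← Nat.card_eq_fintype_card]
  rfl

variable {Lw}

/-- subformulas of purified formulas -/
theorem subs_pur {u : Gf X → Bool} {A : Gf X} {f : Fm (Gf X)} (h : f ∈ (pur Lw u A).subs) :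
    (∃ B ∈ A.subs, f = pur Lw u B) ∨ ∃ b, f = .var (cg b) := by
  induction A with
  | var v =>
    simp only [pur, Fm.subs, List.mem_singleton] at h
    exact Or.inl ⟨.var v, Gf.self_mem_subs _, h⟩
  | neg A ih =>
    by_cases hl : Lw (.neg A)
    · rw [pur_low u hl, Fm.subs, List.mem_singleton] at h
      exact Or.inl ⟨.neg A, Gf.self_mem_subs _, by rw [pur_low u hl, h]⟩
    · have he : pur Lw u (.neg A) = .neg (pur Lw u A) := by simp only [pur, if_neg hl]
      rw [he] at h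
      simp only [Fm.subs, List.mem_cons] at h
      rcases h with h | h
      · exact Or.inl ⟨.neg A, Gf.self_mem_subs _, by rw [he, h]⟩
      · rcases ih h with ⟨B, hB, h1⟩ | h1
        · exact Or.inl ⟨B, by simp only [Gf.subs, Set.mem_insert_iff]; exact Or.inr hB, h1⟩
        · exact Or.inr h1
  | and A1 A2 ih1 ih2 =>
    by_cases hl : Lw (.and A1 A2)
    · rw [pur_low u hl, Fm.subs, List.mem_singleton] at h
      exact Or.inl ⟨.and A1 A2, Gf.self_mem_subs _, by rw [pur_low u hl, h]⟩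
    · have he : pur Lw u (.and A1 A2) = .and (pur Lw u A1) (pur Lw u A2) := by
        simp only [pur, if_neg hl]
      rw [he] at h
      simp only [Fm.subs, List.mem_cons, List.mem_append] at h
      rcases h with h | h | h
      · exact Or.inl ⟨.and A1 A2, Gf.self_mem_subs _, by rw [he, h]⟩
      · rcases ih1 h with ⟨B, hB, h1⟩ | h1
        · exact Or.inl ⟨B, by
            simp only [Gf.subs, Set.mem_insert_iff, Set.mem_union]; exact Or.inr (Or.inl hB), h1⟩
        · exact Or.inr h1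
      · rcases ih2 h with ⟨B, hB, h1⟩ | h1
        · exact Or.inl ⟨B, by
            simp only [Gf.subs, Set.mem_insert_iff, Set.mem_union]; exact Or.inr (Or.inr hB), h1⟩
        · exact Or.inr h1
  | or A1 A2 ih1 ih2 =>
    by_cases hl : Lw (.or A1 A2)
    · rw [pur_low u hl, Fm.subs, List.mem_singleton] at h
      exact Or.inl ⟨.or A1 A2, Gf.self_mem_subs _, by rw [pur_low u hl, h]⟩
    · have he : pur Lw u (.or A1 A2) = .or (pur Lw u A1) (pur Lw u A2) := by
        simp only [pur, if_neg hl]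
      rw [he] at h
      simp only [Fm.subs, List.mem_cons, List.mem_append] at h
      rcases h with h | h | h
      · exact Or.inl ⟨.or A1 A2, Gf.self_mem_subs _, by rw [he, h]⟩
      · rcases ih1 h with ⟨B, hB, h1⟩ | h1
        · exact Or.inl ⟨B, by
            simp only [Gf.subs, Set.mem_insert_iff, Set.mem_union]; exact Or.inr (Or.inl hB), h1⟩
        · exact Or.inr h1
      · rcases ih2 h with ⟨B, hB, h1⟩ | h1
        · exact Or.inl ⟨B, by
            simp only [Gf.subs, Set.mem_insert_iff, Set.mem_union]; exact Or.inr (Or.inr hB), h1⟩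
        · exact Or.inr h1
  | gate m φ a _ =>
    by_cases hl : Lw (.gate m φ a)
    · rw [pur_low u hl, Fm.subs, List.mem_singleton] at h
      exact Or.inl ⟨.gate m φ a, Gf.self_mem_subs _, by rw [pur_low u hl, h]⟩
    · have he : pur Lw u (.gate m φ a) = .var (cg (u (.gate m φ a))) := by
        simp only [pur, if_neg hl]
      rw [he, Fm.subs, List.mem_singleton] at h
      exact Or.inr ⟨_, h⟩

/-- the atoms of purified formulas are low -/
theorem atoms_pur (hL : LowC Lw) {u : Gf X → Bool} {A B : Gf X}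
    (h : B ∈ (pur Lw u A).vars) : Lw B := by
  induction A with
  | var v =>
    have h1 : B = .var v := h
    rw [h1]
    exact hL.var v
  | neg A ih =>
    by_cases hl : Lw (.neg A)
    · rw [pur_low u hl] at h
      have h1 : B = .neg A := h
      rw [h1]
      exact hl
    · have he : pur Lw u (.neg A) = .neg (pur Lw u A) := by simp only [pur, if_neg hl]
      rw [he] at h
      exact ih h
  | and A1 A2 ih1 ih2 =>
    by_cases hl : Lw (.and A1 A2)
    · rw [pur_low u hl] at h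
      have h1 : B = .and A1 A2 := h
      rw [h1]
      exact hl
    · have he : pur Lw u (.and A1 A2) = .and (pur Lw u A1) (pur Lw u A2) := by
        simp only [pur, if_neg hl]
      rw [he] at h
      rcases h with h | h
      · exact ih1 h
      · exact ih2 h
  | or A1 A2 ih1 ih2 =>
    by_cases hl : Lw (.or A1 A2)
    · rw [pur_low u hl] at h
      have h1 : B = .or A1 A2 := h
      rw [h1]
      exact hl
    · have he : pur Lw u (.or A1 A2) = .or (pur Lw u A1) (pur Lw u A2) := by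
        simp only [pur, if_neg hl]
      rw [he] at h
      rcases h with h | h
      · exact ih1 h
      · exact ih2 h
  | gate m φ a _ =>
    by_cases hl : Lw (.gate m φ a)
    · rw [pur_low u hl] at h
      have h1 : B = .gate m φ a := h
      rw [h1]
      exact hl
    · have he : pur Lw u (.gate m φ a) = .var (cg (u (.gate m φ a))) := by
        simp only [pur, if_neg hl]
      rw [he] at h
      have h1 : B = cg (u (.gate m φ a)) := h
      rw [h1]
      exact hL.cg _

/-- the family of purified formulas -/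
theorem exists_family (hL : LowC Lw) {s : Set (Gf X)} (hs : s.Finite)
    (hcl : ∀ A ∈ s, ∀ B ∈ A.subs, B ∈ s) {w : ℕ} (hw : ∀ A ∈ s, (bg Lw A).ncard ≤ w) :
    ∃ Fs : Finset (Fm (Gf X)), Fs.card ≤ s.ncard * 2 ^ w + 2 ∧
      (∀ f ∈ Fs, ∀ g ∈ f.subs, g ∈ Fs) ∧ (∀ b, Fm.var (cg b) ∈ Fs) ∧
      (∀ A ∈ s, ∀ u, pur Lw u A ∈ Fs) ∧ (∀ f ∈ Fs, ∀ B ∈ f.vars, Lw B) ∧
      ∀ f ∈ Fs, (∃ b, f = .var (cg b)) ∨ ∃ A ∈ s, ∃ u, f = pur Lw u A := by
  set Fs : Finset (Fm (Gf X)) := (hs.toFinset.biUnion fun A => (purs_finite Lw A).toFinset) ∪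
    {.var (cg true), .var (cg false)} with hFs
  have hmem : ∀ f, f ∈ Fs ↔ (∃ A ∈ s, ∃ u, f = pur Lw u A) ∨ ∃ b, f = .var (cg b) := by
    intro f
    rw [hFs, Finset.mem_union, Finset.mem_biUnion, Finset.mem_insert, Finset.mem_singleton]
    constructor
    · rintro (⟨A, hA, hf⟩ | h | h)
      · exact Or.inl ⟨A, (Set.Finite.mem_toFinset hs).1 hA,
          (Set.Finite.mem_toFinset (purs_finite Lw A)).1 hf⟩
      · exact Or.inr ⟨_, h⟩
      · exact Or.inr ⟨_, h⟩
    · rintro (⟨A, hA, hf⟩ | ⟨b, h⟩)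
      · exact Or.inl ⟨A, (Set.Finite.mem_toFinset hs).2 hA, (Set.Finite.mem_toFinset _).2 hf⟩
      · cases b with
        | true => exact Or.inr (Or.inl h)
        | false => exact Or.inr (Or.inr h)
  refine ⟨Fs, ?_, ?_, fun b => (hmem _).2 (Or.inr ⟨b, rfl⟩),
    fun A hA u => (hmem _).2 (Or.inl ⟨A, hA, u, rfl⟩), ?_, fun f hf => ((hmem f).1 hf).symm⟩
  · refine (Finset.card_union_le _ _).trans (Nat.add_le_add ?_ Finset.card_le_two)
    refine (Finset.card_biUnion_le_card_mul _ _ (2 ^ w) fun A hA => ?_).trans ?_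
    · rw [← Set.ncard_eq_toFinset_card (purs Lw A) (purs_finite Lw A)]
      exact (ncard_purs Lw A).trans (Nat.pow_le_pow_right (by norm_num)
        (hw A ((Set.Finite.mem_toFinset hs).1 hA)))
    · rw [← Set.ncard_eq_toFinset_card s hs]
  · intro f hf g hg
    rw [hmem] at hf ⊢
    rcases hf with ⟨A, hA, u, rfl⟩ | ⟨b, rfl⟩
    · rcases subs_pur hg with ⟨B, hB, rfl⟩ | h
      · exact Or.inl ⟨B, hcl A hA B hB, u, rfl⟩
      · exact Or.inr h
    · rw [Fm.subs, List.mem_singleton] at hg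
      exact Or.inr ⟨b, hg⟩
  · intro f hf B hB
    rcases (hmem f).1 hf with ⟨A, _, u, rfl⟩ | ⟨b, rfl⟩
    · exact atoms_pur hL hB
    · have h1 : B = cg b := hB
      rw [h1]
      exact hL.cg b

/-! ### lines that arise by substituting low formulas -/

theorem subs_subst {A : Gf X} {B : Gf ℕ} {σ : ℕ → Gf X} (h : A ∈ (B.subst σ).subs) :
    (∃ B' ∈ B.subs, A = B'.subst σ) ∨ ∃ v, A ∈ (σ v).subs := by
  induction B with
  | var v => exact Or.inr ⟨v, h⟩
  | neg f ih =>
    simp only [Gf.subst, Gf.subs, Set.mem_insert_iff] at h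
    rcases h with rfl | h
    · exact Or.inl ⟨.neg f, Gf.self_mem_subs _, rfl⟩
    · rcases ih h with ⟨B', hB', h1⟩ | h1
      · exact Or.inl ⟨B', by simp only [Gf.subs, Set.mem_insert_iff]; exact Or.inr hB', h1⟩
      · exact Or.inr h1
  | and f g ihf ihg =>
    simp only [Gf.subst, Gf.subs, Set.mem_insert_iff, Set.mem_union] at h
    rcases h with rfl | h | h
    · exact Or.inl ⟨.and f g, Gf.self_mem_subs _, rfl⟩
    · rcases ihf h with ⟨B', hB', h1⟩ | h1
      · exact Or.inl ⟨B', by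
          simp only [Gf.subs, Set.mem_insert_iff, Set.mem_union]; exact Or.inr (Or.inl hB'), h1⟩
      · exact Or.inr h1
    · rcases ihg h with ⟨B', hB', h1⟩ | h1
      · exact Or.inl ⟨B', by
          simp only [Gf.subs, Set.mem_insert_iff, Set.mem_union]; exact Or.inr (Or.inr hB'), h1⟩
      · exact Or.inr h1
  | or f g ihf ihg =>
    simp only [Gf.subst, Gf.subs, Set.mem_insert_iff, Set.mem_union] at h
    rcases h with rfl | h | h
    · exact Or.inl ⟨.or f g, Gf.self_mem_subs _, rfl⟩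
    · rcases ihf h with ⟨B', hB', h1⟩ | h1
      · exact Or.inl ⟨B', by
          simp only [Gf.subs, Set.mem_insert_iff, Set.mem_union]; exact Or.inr (Or.inl hB'), h1⟩
      · exact Or.inr h1
    · rcases ihg h with ⟨B', hB', h1⟩ | h1
      · exact Or.inl ⟨B', by
          simp only [Gf.subs, Set.mem_insert_iff, Set.mem_union]; exact Or.inr (Or.inr hB'), h1⟩
      · exact Or.inr h1
  | gate m φ a ih =>
    simp only [Gf.subst, Gf.subs, Set.mem_insert_iff, Set.mem_iUnion] at h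
    rcases h with rfl | ⟨i, h⟩
    · exact Or.inl ⟨.gate m φ a, Gf.self_mem_subs _, rfl⟩
    · rcases ih i h with ⟨B', hB', h1⟩ | h1
      · exact Or.inl ⟨B', by
          simp only [Gf.subs, Set.mem_insert_iff, Set.mem_iUnion]; exact Or.inr ⟨i, hB'⟩, h1⟩
      · exact Or.inr h1

/-- the gates that are not low are instances of gates -/
theorem bg_subst (hL : LowC Lw) {B : Gf ℕ} {σ : ℕ → Gf X} (hσ : ∀ v, Lw (σ v)) :
    bg Lw (B.subst σ) ⊆ (fun g => g.subst σ) '' B.gates := by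
  rintro g ⟨⟨hg, hgg⟩, hl⟩
  rcases subs_subst hg with ⟨B', hB', rfl⟩ | ⟨v, hv⟩
  · refine ⟨B', ⟨hB', ?_⟩, rfl⟩
    cases B' with
    | var v => exact absurd (hσ v) hl
    | neg f => exact absurd hgg (by simp [Gf.subst, Gf.IsGate])
    | and f g => exact absurd hgg (by simp [Gf.subst, Gf.IsGate])
    | or f g => exact absurd hgg (by simp [Gf.subst, Gf.IsGate])
    | gate m φ a => trivial
  · exact absurd (low_subs hL (hσ v) hv) hl

theorem ncard_bg_subst (hL : LowC Lw) {B : Gf ℕ} {σ : ℕ → Gf X} (hσ : ∀ v, Lw (σ v)) :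
    (bg Lw (B.subst σ)).ncard ≤ B.gates.ncard :=
  (Set.ncard_le_ncard (bg_subst hL hσ) (B.gates_finite.image _)).trans
    (Set.ncard_image_le B.gates_finite)

theorem deg_subst (hL : LowC Lw) {B : Gf ℕ} {σ : ℕ → Gf X} (hσ : ∀ v, Lw (σ v)) {m : ℕ}
    {φ : (Fin m → Bool) → Bool} {a : Fin m → Gf X} (h : Gf.gate m φ a ∈ bg Lw (B.subst σ)) :
    ∃ a', Gf.gate m φ a' ∈ B.subs := by
  obtain ⟨g, hg, he⟩ := bg_subst hL hσ h
  have he' : g.subst σ = Gf.gate m φ a := he
  cases g with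
  | var v =>
    have : Gf.gate m φ a = σ v := he'.symm
    rw [this] at h
    exact absurd (hσ v) h.2
  | neg f => simp [Gf.subst] at he'
  | and f g => simp [Gf.subst] at he'
  | or f g => simp [Gf.subst] at he'
  | gate m' φ' a' =>
    simp only [Gf.subst, Gf.gate.injEq] at he'
    obtain ⟨rfl, h1, _⟩ := he'
    rw [heq_eq_eq] at h1
    subst h1
    exact ⟨a', hg.1⟩

theorem rk_pur (hL : LowC Lw) (u : Gf X → Bool) (B : Gf ℕ) (σ : ℕ → Gf X) (hσ : ∀ v, Lw (σ v))
    (b : Bool) : FrG.rk Lit (pur Lw u (B.subst σ)) b ≤ B.alt b := by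
  have hlow : ∀ A : Gf X, Lw A → ∀ b, FrG.rk Lit (pur Lw u A) b = 0 := by
    intro A hA b
    rw [pur_low u hA]
    exact FrG.rk_small bas_lit _ (bas_lit.var A) b
  induction B generalizing b with
  | var v =>
    show FrG.rk Lit (pur Lw u (σ v)) b ≤ _
    rw [hlow _ (hσ v)]
    exact Nat.zero_le _
  | neg f ih =>
    by_cases hl : Lw ((Gf.neg f).subst σ)
    · rw [hlow _ hl]
      exact Nat.zero_le _
    · have he : pur Lw u ((Gf.neg f).subst σ) = .neg (pur Lw u (f.subst σ)) := by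
        have hl' : ¬ Lw (.neg (f.subst σ)) := hl
        show pur Lw u (.neg (f.subst σ)) = _
        simp only [pur, if_neg hl']
      rw [he]
      exact ih (!b)
  | and f g ih1 ih2 =>
    by_cases hl : Lw ((Gf.and f g).subst σ)
    · rw [hlow _ hl]
      exact Nat.zero_le _
    · have he : pur Lw u ((Gf.and f g).subst σ) =
          .and (pur Lw u (f.subst σ)) (pur Lw u (g.subst σ)) := by
        have hl' : ¬ Lw (.and (f.subst σ) (g.subst σ)) := hl
        show pur Lw u (.and (f.subst σ) (g.subst σ)) = _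
        simp only [pur, if_neg hl']
      rw [he]
      have h1 := ih1 false
      have h2 := ih2 false
      simp only [FrG.rk, Gf.alt]
      split_ifs <;> omega
  | or f g ih1 ih2 =>
    by_cases hl : Lw ((Gf.or f g).subst σ)
    · rw [hlow _ hl]
      exact Nat.zero_le _
    · have he : pur Lw u ((Gf.or f g).subst σ) =
          .or (pur Lw u (f.subst σ)) (pur Lw u (g.subst σ)) := by
        have hl' : ¬ Lw (.or (f.subst σ) (g.subst σ)) := hl
        show pur Lw u (.or (f.subst σ) (g.subst σ)) = _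
        simp only [pur, if_neg hl']
      rw [he]
      have h1 := ih1 true
      have h2 := ih2 true
      simp only [FrG.rk, Gf.alt]
      split_ifs <;> omega
  | gate m φ a _ =>
    by_cases hl : Lw ((Gf.gate m φ a).subst σ)
    · rw [hlow _ hl]
      exact Nat.zero_le _
    · have he : ∃ c, pur Lw u ((Gf.gate m φ a).subst σ) = .var (cg c) := by
        have hl' : ¬ Lw (.gate m φ fun i => (a i).subst σ) := hl
        refine ⟨u (.gate m φ fun i => (a i).subst σ), ?_⟩
        show pur Lw u (.gate m φ fun i => (a i).subst σ) = _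
        simp only [pur, if_neg hl']
      obtain ⟨c, hc⟩ := he
      rw [hc, FrG.rk_small bas_lit _ (bas_lit.var _) b]
      exact Nat.zero_le _

theorem lev_pur (hL : LowC Lw) (u : Gf X → Bool) (B : Gf ℕ) (σ : ℕ → Gf X)
    (hσ : ∀ v, Lw (σ v)) : FrG.lev Lit (pur Lw u (B.subst σ)) ≤ B.depth := by
  have h1 := rk_pur hL u B σ hσ true
  have h2 := rk_pur hL u B σ hσ false
  unfold FrG.lev Gf.depth
  omega

/-- all purified subformulas of an admissible line have small depth -/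
theorem lev_line (hL : LowC Lw) {p d : ℕ} {κ : ℝ} {B : Gf ℕ} (hB : Tame p d κ B) {σ : ℕ → Gf X}
    (hσ : ∀ v, Lw (σ v)) {A : Gf X} (hA : A ∈ (B.subst σ).subs) (u : Gf X → Bool) :
    FrG.lev Lit (pur Lw u A) ≤ d := by
  rcases subs_subst hA with ⟨B', hB', rfl⟩ | ⟨v, hv⟩
  · exact (lev_pur hL u B' σ hσ).trans (depth_subs hB' hB.depth hB.arg)
  · rw [pur_low u (low_subs hL (hσ v) hv), FrG.rank_small bas_lit _ (bas_lit.var _)]
    exact Nat.zero_le _

theorem bg_ofFm (f : Fm X) : bg Lw (Gf.ofFm f) = ∅ := by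
  have h : ∀ f : Fm X, (Gf.ofFm f).gates = ∅ := by
    intro f
    induction f with
    | var v => exact gates_var v
    | neg f ih => rw [Gf.ofFm, gates_neg, ih]
    | and f g ihf ihg => rw [Gf.ofFm, gates_and, ihf, ihg, Set.union_self]
    | or f g ihf ihg => rw [Gf.ofFm, gates_or, ihf, ihg, Set.union_self]
  ext g
  constructor
  · rintro ⟨hg, _⟩
    rw [h] at hg
    exact hg
  · intro hg
    exact absurd hg (Set.notMem_empty g)

end

end FrN
end

section

/-!
Few large gates (namespace `FrN`): the main theorem.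
-/

set_option linter.unusedSectionVars false

namespace FrN

open Finset FrM
open Fr56 (Fm)
open scoped Classical

/-- exact values of the low atoms, from the transported local functions -/
theorem ex_of_jn {V E X : Type} [Fintype E] [DecidableEq V] {G : FrC.Gph V E} {Fr : FrC.Frame G}
    {v0 : V} {Φ : Set (Fm (Gf X))} {cap : ℕ} (S : FrC.Valn Fr v0 (Gf X) Φ cap)
    (Lw : Gf X → Prop) (ev : (E → ZMod 2) → X → Bool) {kk : ℕ}
    (h : Jn S {f | f ∈ Φ ∧ ∃ A, f = .var A} (fun f y => f.eval fun A => A.eval (ev y)) kk) :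
    Nonempty (Ex S Lw ev kk) := by
  have key : ∀ A : Gf X, ∃ W : Finset V, W.card ≤ kk ∧
      (Fm.var A ∈ Φ → ∀ y y', G.Agree W y y' → A.eval (ev y') = A.eval (ev y)) ∧
      (Fm.var A ∈ Φ → ∀ b U y, W ⊆ U → U.card ≤ cap → Fr.Ok v0 U y →
        S.Q (.var A) b U y → b = A.eval (ev y)) := by
    intro A
    by_cases hA : Fm.var A ∈ Φ
    · obtain ⟨W, h1, h2, h3⟩ := h (.var A) ⟨hA, A, rfl⟩
      exact ⟨W, h1, fun _ y y' hag => (h2 y y' hag).symm, fun _ => h3⟩
    · exact ⟨∅, by rw [Finset.card_empty]; exact Nat.zero_le _, fun h => absurd h hA,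
        fun h => absurd h hA⟩
  choose W h1 h2 h3 using key
  exact ⟨⟨W, h1, fun A _ hA => h2 A hA, fun A _ hA => h3 A hA⟩⟩

/-- there is no refutation with few subformulas -/
theorem no_small {V E' : Type} [Fintype V] [Fintype E'] [DecidableEq V] [DecidableEq E']
    {G : FrC.Gph V E'} (Fr : FrC.Frame G) (v0 : V) {D n₁ T N k kk cap s0 d : ℕ}
    (hred : Red Fr v0 d kk k 9) (ν : FrD.Nmb V E' n₁) (hT : 0 < T) (hn₁ : 2 ≤ n₁)
    (hN : n₁ * T ≤ N) (hs0 : 2 * (D + 3) * s0 ≤ T ^ (D + 2)) (hs1 : 2 * (D + 3) ≤ s0)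
    (hkK : 4 * (2 * (D + 3) * (k + D + 7)) ≤ kk) (hkk : k * kk ≤ cap) (hcap : cap ≤ Fr.m)
    {p : ℕ} [Fact p.Prime] (h2 : (2 : ZMod p) ≠ 0) {κ : ℝ} {n : ℕ} (hn : 1 ≤ n)
    (hκ : ∀ j : ℕ, (j : ℝ) ≤ κ → j ≤ n) (hk : 20 * n ^ 3 ≤ k) (b : Gf ℕ) (hb : b.Unsat)
    (hbκ : (b.conn : ℝ) ≤ κ) (τ : ℕ → FrS.E D) (π : List (Gf (FrS.E D)))
    (hπ : Derives κ ({Gf.ofFm (FrS.Ts D N)} ∪ {A | (vfs A).card ≤ s0 ∧ ∀ x, A.eval x = true}) π)
    (hbπ : b.ren τ ∈ π)
    (hline : ∀ A ∈ π, ∃ (B : Gf ℕ) (σ : ℕ → Gf (FrS.E D)), A = B.subst σ ∧ Tame p d κ B ∧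
      ∀ v, (vfs (σ v)).card ≤ s0)
    (htot : (subSet π).ncard * 2 ^ n + 2 ≤ 2 ^ k) : False := by
  have hN2 : 2 ≤ N := hn₁.trans ((Nat.le_mul_of_pos_right n₁ hT).trans hN)
  obtain ⟨Lw, hLwd⟩ : ∃ Lw : Gf (FrS.E D) → Prop, Lw = fun A => (vfs A).card ≤ s0 := ⟨_, rfl⟩
  have hLw : LowC Lw := by
    rw [hLwd]
    exact lowC_vfs (by omega)
  have hσL : ∀ A ∈ π, ∃ (B : Gf ℕ) (σ : ℕ → Gf (FrS.E D)), A = B.subst σ ∧ Tame p d κ B ∧
      ∀ v, Lw (σ v) := by
    rw [hLwd]
    exact hline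
  have hw : ∀ A ∈ π, (bg Lw A).ncard ≤ n := by
    intro A hA
    obtain ⟨B, σ, rfl, hB, hσ⟩ := hσL A hA
    exact (ncard_bg_subst hLw hσ).trans (hκ _ hB.card)
  have hgate : ∀ A ∈ subSet π, (bg Lw A).ncard ≤ n := by
    rintro A ⟨C, hC, hA⟩
    exact (Set.ncard_le_ncard (bg_mono hA) (bg_finite C)).trans (hw C hC)
  obtain ⟨Fs, h1, hsubs, hcg, hpur, hatoms, hall⟩ := exists_family hLw (subSet_finite π)
    (fun A ⟨C, hC, hA⟩ B hB => ⟨C, hC, Gf.subs_trans hB hA⟩) hgate
  have hcard : Fs.card ≤ 2 ^ k := h1.trans htot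
  have hlev : ∀ f ∈ Fs, FrG.lev Lit f ≤ d := by
    intro f hf
    rcases hall f hf with ⟨c, rfl⟩ | ⟨A, ⟨C, hC, hA⟩, u, rfl⟩
    · rw [FrG.rank_small bas_lit _ (bas_lit.var _)]
      exact Nat.zero_le _
    · obtain ⟨B, σ, rfl, hB, hσ⟩ := hσL C hC
      exact lev_line hLw hB hσ hA u
  -- literals have small support
  have hsupp : ∀ f ∈ Fs, Lit f → (supp f).card ≤ s0 := by
    intro f hf hl
    have hatom : ∀ A ∈ f.vars, (vfs A).card ≤ s0 := by
      intro A hA
      have := hatoms f hf A hA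
      rw [hLwd] at this
      exact this
    clear hf
    induction f with
    | var A => exact hatom A rfl
    | neg f ih => exact ih hl hatom
    | and f g _ _ => exact absurd hl (by simp [Lit])
    | or f g _ _ => exact absurd hl (by simp [Lit])
  obtain ⟨a, ha⟩ := FrG.exists_asg (D := D) (n := n₁) (T := T) (k := k) hT
    ((Fs.filter Lit).image supp)
    (Finset.card_image_le.trans ((Finset.card_filter_le _ _).trans hcard)) (by
      intro s hs
      obtain ⟨f, hf, rfl⟩ := Finset.mem_image.1 hs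
      obtain ⟨hf1, hf2⟩ := Finset.mem_filter.1 hf
      exact (Nat.mul_le_mul_left _ (hsupp f hf1 hf2)).trans hs0)
  have hK : ∀ f ∈ {f | f ∈ Fs ∧ FrG.lev Lit f ≤ 0},
      ((FrS.edges D n₁).filter fun e => FrG.Hit hT (supp f) e a).card ≤
        2 * (D + 3) * (k + D + 7) := by
    rintro f ⟨hf, hl⟩
    rw [Nat.le_zero, FrG.lev_eq_zero_iff bas_lit] at hl
    exact ha _ (Finset.mem_image_of_mem supp (Finset.mem_filter.2 ⟨hf, hl⟩))
  set S : FrC.Valn Fr v0 (Gf (FrS.E D)) {f | f ∈ Fs ∧ FrG.lev Lit f ≤ 0} cap :=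
    nVal Fr v0 ν hT a _ cap with hS
  have hSD : S.Dcds kk := fun f hf y hy =>
    ((nVal_dcds Fr v0 ν hT a {f | f ∈ Fs ∧ FrG.lev Lit f ≤ 0} cap hK) f hf y hy).mono hkK
  obtain ⟨V', E2, iV, iE, dV, dE, G', Fr', v0', kk', cap', S', h0, h3, h4, h5, h6, h7, L, hJ⟩ :=
    hred (Gf (FrS.E D)) Lit Fs 0 cap S bas_lit hsubs hcard hkk hcap hSD
  -- exact values
  have hbase : {f : Fm (Gf (FrS.E D)) | f ∈ Fs ∧ ∃ A, f = .var A} ⊆
      {f | f ∈ Fs ∧ FrG.lev Lit f ≤ 0} := by
    rintro f ⟨hf, A, rfl⟩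
    exact ⟨hf, by rw [FrG.rank_small bas_lit _ (bas_lit.var _)]⟩
  have hJn := hJ _ _ hbase (nVal_jn Fr v0 ν hT a _ cap
    {f : Fm (Gf (FrS.E D)) | f ∈ Fs ∧ ∃ A, f = .var A} (fun f hf => hf.2)
    (fun f hf => hK f (hbase hf)) hkK)
  obtain ⟨I⟩ := ex_of_jn S' Lw (fun y => xf v0 ν hT a G (L y)) (kk := kk') (by
    rintro f ⟨hf, hA⟩
    exact hJn f ⟨hf.1, hA⟩)
  refine no_refutation S' h4 h0 h6 hLw I h2 (fun c => ⟨hcg c, ?_⟩) hn hκ hk h3 h5 b hb hbκ
    τ _ π hπ ?_ hbπ hw ?_ (fun A hA u => ⟨hpur A hA u, ?_⟩)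
  · rw [FrG.rank_small bas_lit _ (bas_lit.var _)]
    exact Nat.zero_le _
  · rintro A (hA | ⟨hA1, hA2⟩) hAπ
    · rw [Set.mem_singleton_iff] at hA
      subst hA
      refine Or.inr ⟨bg_ofFm _, fun u => ?_⟩
      have hm := hpur (Gf.ofFm (FrS.Ts D N)) ⟨_, hAπ, Gf.self_mem_subs _⟩ u
      refine h7 _ hm ?_ ?_
      · rw [Nat.zero_add]
        exact hlev _ hm
      · rw [hLwd]
        refine (pur_andOf Fr v0 ν hT a {f | f ∈ Fs ∧ FrG.lev Lit f ≤ 0} cap kk hn₁ hN hs1 u
          (andOf_Ts D hN2)).mono fun f _ hf => ⟨?_, hf.2⟩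
        rw [Nat.le_zero, FrG.lev_eq_zero_iff bas_lit]
        exact hf.1
    · refine Or.inl ⟨?_, hA2⟩
      rw [hLwd]
      exact hA1
  · intro A hA m φ c hc
    obtain ⟨B, σ, rfl, hB, hσ⟩ := hσL A hA
    obtain ⟨a', ha'⟩ := deg_subst hLw hσ hc
    exact (hB.deg m φ a' ha').mono hκ
  · rw [Nat.zero_add]
    exact hlev _ (hpur A hA u)

theorem Derives.map {V W : Type} (τ : V → W) {κ : ℝ} {Ax : Set (Gf V)} {Ax' : Set (Gf W)}
    {π : List (Gf V)} (h : Derives κ Ax π) (hAx : ∀ A ∈ Ax, A.ren τ ∈ Ax') :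
    Derives κ Ax' (π.map (Gf.ren τ)) := by
  intro i hi
  rw [List.length_map] at hi
  rw [List.getElem_map]
  rcases h i hi with h1 | ⟨r, hr, hk, σ, h1, h2⟩
  · exact Or.inl (hAx _ h1)
  · refine Or.inr ⟨r, hr, hk, fun v => (σ v).ren τ, ?_, fun A hA => ?_⟩
    · rw [h1, Gf.ren_subst]
    · obtain ⟨j, hj, h3⟩ := h2 A hA
      refine ⟨j, hj, ?_⟩
      rw [List.getElem_map, h3, Gf.ren_subst]

theorem card_vfs_ren {X W : Type} (τ : X → W) (A : Gf X) : (vfs (A.ren τ)).card ≤ (vfs A).card := by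
  rw [card_vfs, card_vfs, vars_ren]
  exact Set.ncard_image_le (vars_finite A)

/-- **few large gates, grid form** -/
theorem main_grid (D d : ℕ) (δ : ℝ) (hδ : 0 < δ) : ∃ c : ℝ, 0 < c ∧ ∃ N₀ : ℕ, ∀ N : ℕ, N₀ ≤ N →
    ∀ κ : ℝ, κ ≤ (N : ℝ) ^ c → ∀ p : ℕ, p.Prime → p ≠ 2 →
    ∀ b : Gf ℕ, b.Unsat → (b.conn : ℝ) ≤ κ → ∀ π : List (Gf ℕ),
    Derives κ ({Gf.ofFm (FrS.TsN D N)} ∪ {A | ((vars A).ncard : ℝ) ≤ (N : ℝ) ^ ((D : ℝ) + 2 - δ) ∧
      ∀ x, A.eval x = true}) π → b ∈ π →
    (∀ A ∈ π, ∃ (B : Gf ℕ) (σ : ℕ → Gf ℕ), A = B.subst σ ∧ Tame p d κ B ∧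
      ∀ v, ((vars (σ v)).ncard : ℝ) ≤ (N : ℝ) ^ ((D : ℝ) + 2 - δ)) →
    (2 : ℝ) ^ κ ≤ ((subSet π).ncard : ℕ) := by
  obtain ⟨A0, hA0⟩ : ∃ A0, A0 = 16 * (D + 3) := ⟨_, rfl⟩
  obtain ⟨a, k0, htow⟩ := towers 9 d A0 A0
  obtain ⟨c, hc, hnumeric⟩ := FrG.numericG D δ hδ (2 * a + 1)
  obtain ⟨N₁, hN₁⟩ := hnumeric (k0 + D + 7)
  obtain ⟨N₂, hN₂⟩ := FrS.eventually_const_le 160 (c / 4) (by positivity)
  refine ⟨c / 4, by positivity, N₁ + N₂ + 1, fun N hN κ hκN p hp hp2 b hb hbκ π hπ hbπ hs => ?_⟩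
  have : Fact p.Prime := ⟨hp⟩
  have h2 : (2 : ZMod p) ≠ 0 := by
    intro h
    have h3 : ((2 : ℕ) : ZMod p) = 0 := by exact_mod_cast h
    rw [ZMod.natCast_eq_zero_iff] at h3
    exact hp2 ((Nat.prime_dvd_prime_iff_eq hp Nat.prime_two).1 h3)
  by_contra hlt
  push Not at hlt
  obtain ⟨s, T, s0, h1, hT, hnT, hs0, hs1, hfl, hNc⟩ := hN₁ N (by omega)
  obtain ⟨V, E, iV, iE, dV, dE, G, Fr, v0, hl, hdeg, h0, hcV, hcE, hBm, hkill⟩ :=
    htow s (by omega)
  have hN0 : (0 : ℝ) < (N : ℝ) := by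
    have : 0 < N := by omega
    exact_mod_cast this
  have h160 : (160 : ℝ) ≤ (N : ℝ) ^ (c / 4) := hN₂ N (by omega)
  -- the integer parameter
  obtain ⟨n, hn⟩ : ∃ n, n = ⌊κ⌋₊ + 1 := ⟨_, rfl⟩
  have hκn : κ < n := by
    rw [hn]
    push_cast
    exact Nat.lt_floor_add_one κ
  have hκj : ∀ j : ℕ, (j : ℝ) ≤ κ → j ≤ n := by
    intro j hj
    have : (j : ℝ) < n := lt_of_le_of_lt hj hκn
    have h3 : j < n := by exact_mod_cast this
    exact h3.le
  have hnN : (n : ℝ) ≤ 2 * (N : ℝ) ^ (c / 4) := by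
    have h3 : ((⌊κ⌋₊ : ℕ) : ℝ) ≤ (N : ℝ) ^ (c / 4) := by
      rcases le_total 0 κ with h | h
      · exact (Nat.floor_le h).trans hκN
      · rw [Nat.floor_of_nonpos h]
        push_cast
        linarith
    rw [hn]
    push_cast
    linarith
  have hk : 20 * n ^ 3 ≤ s := by
    have h3 : ((20 * n ^ 3 : ℕ) : ℝ) ≤ (s : ℝ) := by
      refine le_trans ?_ hNc
      have h4 : (N : ℝ) ^ c = ((N : ℝ) ^ (c / 4)) ^ 4 := by
        rw [← Real.rpow_natCast, ← Real.rpow_mul hN0.le]
        congr 1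
        push_cast
        ring
      rw [h4]
      push_cast
      set x : ℝ := (N : ℝ) ^ (c / 4) with hx
      have hn0 : (0 : ℝ) ≤ n := Nat.cast_nonneg n
      calc 20 * (n : ℝ) ^ 3 ≤ 20 * (2 * x) ^ 3 := by gcongr
        _ = 160 * x ^ 3 := by ring
        _ ≤ x * x ^ 3 := by gcongr
        _ = x ^ 4 := by ring
    exact_mod_cast h3
  have hn1 : 1 ≤ n := by omega
  have hs2 : (s + 2) ^ a ≤ s ^ (2 * a + 1) := by
    calc (s + 2) ^ a ≤ (s * s) ^ a := Nat.pow_le_pow_left (by nlinarith) a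
      _ = s ^ (2 * a) := by rw [← pow_two, ← pow_mul]
      _ ≤ s ^ (2 * a + 1) := Nat.pow_le_pow_right (by omega) (by omega)
  have hn2 : 2 ≤ s ^ (2 * a + 1) := by
    calc 2 ≤ s := by omega
      _ = s ^ 1 := (pow_one s).symm
      _ ≤ s ^ (2 * a + 1) := Nat.pow_le_pow_right (by omega) (by omega)
  obtain ⟨ν⟩ := FrD.exists_nmb (V := V) (E := E) (hcV.trans hs2) (hcE.trans hs2)
  have htot : (subSet π).ncard ≤ 2 ^ n := by
    have h3 : (((subSet π).ncard : ℕ) : ℝ) ≤ ((2 ^ n : ℕ) : ℝ) := by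
      refine hlt.le.trans ?_
      push_cast
      rw [← Real.rpow_natCast]
      exact Real.rpow_le_rpow_of_exponent_le (by norm_num) hκn.le
    exact_mod_cast h3
  have hvar : ∀ A : Gf ℕ, ((vars A).ncard : ℝ) ≤ (N : ℝ) ^ ((D : ℝ) + 2 - δ) →
      (vfs (A.ren (FrS.decE D))).card ≤ s0 := by
    intro A hA
    refine (card_vfs_ren _ A).trans ?_
    rw [card_vfs]
    exact hfl _ hA
  refine no_small Fr v0 (D := D) (T := T) (N := N) (d := d) (k := s) (kk := A0 * s)
    (cap := s * (A0 * s)) (s0 := s0) hkill ν hT hn2 hnT hs0 hs1 ?_ le_rfl (by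
      refine le_trans (le_of_eq ?_) hBm
      ring) h2 hn1 hκj hk b hb hbκ (FrS.decE D) (π.map (Gf.ren (FrS.decE D))) ?_
    (List.mem_map_of_mem hbπ) ?_ ?_
  · rw [hA0]
    have : s + D + 7 ≤ 2 * s := by omega
    calc 4 * (2 * (D + 3) * (s + D + 7)) ≤ 4 * (2 * (D + 3) * (2 * s)) := by gcongr
      _ = 16 * (D + 3) * s := by ring
  · refine hπ.map (FrS.decE D) ?_
    rintro A (hA | ⟨hA1, hA2⟩)
    · rw [Set.mem_singleton_iff] at hA
      subst hA
      rw [Gf.ren_ofFm, FrS.TsN_dec]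
      exact Or.inl rfl
    · refine Or.inr ⟨hvar A hA1, fun x => ?_⟩
      unfold Gf.ren
      rw [Gf.eval_subst]
      exact hA2 _
  · intro A hA
    obtain ⟨A1, hA1, rfl⟩ := List.mem_map.1 hA
    obtain ⟨B, σ, rfl, hB, hσ⟩ := hs A1 hA1
    exact ⟨B, fun v => (σ v).ren (FrS.decE D), Gf.ren_subst _ _ _, hB, fun v => hvar _ (hσ v)⟩
  · have h3 := (ncard_subSet_map (FrS.decE D) π).trans htot
    have h4 : 2 * n + 1 ≤ s := by
      have : n ≤ n ^ 3 := Nat.le_self_pow (by norm_num) n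
      omega
    have h5 : 2 ≤ 2 ^ n * 2 ^ n := by
      have : 2 ≤ 2 ^ n := Nat.le_self_pow (by omega) 2
      nlinarith
    calc (subSet (π.map (Gf.ren (FrS.decE D)))).ncard * 2 ^ n + 2
        ≤ 2 ^ n * 2 ^ n + 2 ^ n * 2 ^ n := Nat.add_le_add (Nat.mul_le_mul_right _ h3) h5
      _ = 2 ^ (2 * n + 1) := by ring
      _ ≤ 2 ^ s := Nat.pow_le_pow_right (by norm_num) h4

/-- **bounded-depth Frege with few large modular gates per line** -/
theorem main_exp (ε : ℝ) (hε : 0 < ε) : ∃ (w : ℕ) (F : ℕ → Fm ℕ),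
    (∀ n, (F n).Unsat ∧ (F n).IsCNF w ∧ n ≤ (F n).size) ∧
    ∀ d : ℕ, ∃ c : ℝ, 0 < c ∧ ∃ n₀ : ℕ, ∀ n : ℕ, n₀ ≤ n → ∀ p : ℕ, p.Prime → p ≠ 2 →
      ∀ b : Gf ℕ, b.Unsat → (b.conn : ℝ) ≤ ((F n).size : ℝ) ^ c → ∀ π : List (Gf ℕ),
        Derives (((F n).size : ℝ) ^ c) ({Gf.ofFm (F n)} ∪
          {A | ((vars A).ncard : ℝ) ≤ ((F n).size : ℝ) ^ (1 - ε) ∧ ∀ x, A.eval x = true}) π →
        b ∈ π →
        (∀ A ∈ π, ∃ (B : Gf ℕ) (σ : ℕ → Gf ℕ), A = B.subst σ ∧
          Tame p d (((F n).size : ℝ) ^ c) B ∧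
          ∀ v, ((vars (σ v)).ncard : ℝ) ≤ ((F n).size : ℝ) ^ (1 - ε)) →
        (2 : ℝ) ^ (((F n).size : ℝ) ^ c) ≤ ((subSet π).ncard : ℕ) := by
  -- the dimension
  obtain ⟨D, hD⟩ : ∃ D : ℕ, 4 ≤ ((D : ℝ) + 3) * ε := by
    obtain ⟨D, hD⟩ := exists_nat_ge (4 / ε)
    refine ⟨D, ?_⟩
    rw [div_le_iff₀ hε] at hD
    nlinarith
  have hD0 : (0 : ℝ) ≤ D := Nat.cast_nonneg D
  set K : ℝ := 2 ^ (2 * (D + 3)) * (4 * (D + 3) + 1) * 2 with hK
  have hK1 : 1 ≤ K := by
    rw [hK]
    have h1 : (1 : ℝ) ≤ 2 ^ (2 * (D + 3)) := one_le_pow₀ (by norm_num)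
    have h2 : (1 : ℝ) ≤ 4 * (D + 3) + 1 := by linarith
    nlinarith [mul_le_mul h1 h2 zero_le_one (zero_le_one.trans h1)]
  have hsize : ∀ n : ℕ, ((FrS.TsN D (n + 2)).size : ℝ) ≤ K * ((n + 2 : ℕ) : ℝ) ^ (D + 3) := by
    intro n
    rw [FrS.TsN_size]
    have h := FrS.Ts_size (D := D) (N := n + 2) (by omega)
    have h' : ((FrS.Ts D (n + 2)).size : ℝ) ≤
        (((n + 2) ^ (D + 3) * 2 ^ (2 * (D + 3)) * (4 * (D + 3) + 1) * 2 : ℕ) : ℝ) := by
      exact_mod_cast h
    refine h'.trans (le_of_eq ?_)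
    rw [hK]
    push_cast
    ring
  refine ⟨2 * (D + 3), fun n => FrS.TsN D (n + 2), fun n => ⟨FrS.TsN_unsat D (by omega),
    FrS.TsN_cnf D (by omega), ?_⟩, fun d => ?_⟩
  · rw [FrS.TsN_size]
    refine le_trans ?_ (FrS.le_Ts_size (by omega))
    calc n ≤ n + 2 := by omega
      _ = (n + 2) ^ 1 := (pow_one _).symm
      _ ≤ (n + 2) ^ (D + 3) := Nat.pow_le_pow_right (by omega) (by omega)
  · obtain ⟨c, hc, N₀, hmain⟩ := main_grid D d 1 one_pos
    obtain ⟨c', hc'⟩ : ∃ c' : ℝ, c' = c / (2 * (D + 3)) := ⟨_, rfl⟩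
    have hc'0 : 0 < c' := by rw [hc']; positivity
    obtain ⟨N₁, hN₁⟩ := FrS.eventually_const_le (K ^ (1 : ℝ)) 1 one_pos
    obtain ⟨N₂, hN₂⟩ := FrS.eventually_const_le (K ^ c') (c / 2) (by positivity)
    refine ⟨c', hc'0, N₀ + N₁ + N₂, fun n hn p hp hp2 b hb hbκ π hπ hbπ hs => ?_⟩
    obtain ⟨N, hN⟩ : ∃ N, N = n + 2 := ⟨_, rfl⟩
    beta_reduce at hbκ hπ hs ⊢
    rw [← hN] at hbκ hπ hs ⊢
    have hNpos : (0 : ℝ) < (N : ℝ) := by rw [hN]; positivity
    have hN1 : (1 : ℝ) ≤ (N : ℝ) := by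
      rw [hN]; push_cast; linarith [(Nat.cast_nonneg n : (0:ℝ) ≤ n)]
    have hF := hsize n
    rw [← hN] at hF
    have hF1 : (1 : ℝ) ≤ ((FrS.TsN D N).size : ℝ) := by
      have h1 := FrS.le_Ts_size (D := D) (N := N) (by omega)
      have h2 : 1 ≤ N ^ (D + 3) := Nat.one_le_pow _ _ (by omega)
      rw [FrS.TsN_size]
      exact_mod_cast h2.trans h1
    have key : ∀ a : ℝ, 0 ≤ a →
        ((FrS.TsN D N).size : ℝ) ^ a ≤ K ^ a * (N : ℝ) ^ ((D + 3) * a) := by
      intro a ha
      calc ((FrS.TsN D N).size : ℝ) ^ a ≤ (K * (N : ℝ) ^ (D + 3)) ^ a := by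
            apply Real.rpow_le_rpow (by linarith) hF ha
        _ = K ^ a * (N : ℝ) ^ ((D + 3) * a) := by
            rw [Real.mul_rpow (by linarith) (by positivity), ← Real.rpow_natCast,
              ← Real.rpow_mul hNpos.le]
            push_cast
            rfl
    have hbound : ((FrS.TsN D N).size : ℝ) ^ (1 - ε) ≤ (N : ℝ) ^ ((D : ℝ) + 2 - 1) := by
      by_cases h2ε : 0 ≤ 1 - ε
      · calc ((FrS.TsN D N).size : ℝ) ^ (1 - ε) ≤ K ^ (1 - ε) * (N : ℝ) ^ ((D + 3) * (1 - ε)) :=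
              key _ h2ε
          _ ≤ (N : ℝ) ^ (1 : ℝ) * (N : ℝ) ^ ((D : ℝ) + 2 - 2) := by
              have h1 : K ^ (1 - ε) ≤ (N : ℝ) ^ (1 : ℝ) :=
                (Real.rpow_le_rpow_of_exponent_le hK1 (by linarith)).trans (hN₁ N (by omega))
              have h2 : (N : ℝ) ^ (((D : ℝ) + 3) * (1 - ε)) ≤ (N : ℝ) ^ ((D : ℝ) + 2 - 2) := by
                apply Real.rpow_le_rpow_of_exponent_le hN1
                nlinarith
              gcongr
          _ = (N : ℝ) ^ ((D : ℝ) + 2 - 1) := by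
              rw [← Real.rpow_add hNpos]
              congr 1
              ring
      · push Not at h2ε
        calc ((FrS.TsN D N).size : ℝ) ^ (1 - ε) ≤ 1 :=
              Real.rpow_le_one_of_one_le_of_nonpos hF1 h2ε.le
          _ ≤ (N : ℝ) ^ ((D : ℝ) + 2 - 1) := by
              apply Real.one_le_rpow hN1
              linarith
    have hκ : ((FrS.TsN D N).size : ℝ) ^ c' ≤ (N : ℝ) ^ c := by
      calc ((FrS.TsN D N).size : ℝ) ^ c' ≤ K ^ c' * (N : ℝ) ^ ((D + 3) * c') := key c' hc'0.le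
        _ ≤ (N : ℝ) ^ (c / 2) * (N : ℝ) ^ (c / 2) := by
            have h1 := hN₂ N (by omega)
            have h2 : ((D : ℝ) + 3) * c' = c / 2 := by
              rw [hc']
              field_simp
            rw [h2]
            gcongr
        _ = (N : ℝ) ^ c := by
            rw [← Real.rpow_add hNpos]
            congr 1
            ring
    refine hmain N (by omega) _ hκ p hp hp2 b hb hbκ π ?_ hbπ (fun A hA => ?_)
    · intro i hi
      rcases hπ i hi with (h | ⟨h1, h2⟩) | h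
      · exact Or.inl (Or.inl h)
      · exact Or.inl (Or.inr ⟨h1.trans hbound, h2⟩)
      · exact Or.inr h
    · obtain ⟨B, σ, h1, h2, h3⟩ := hs A hA
      exact ⟨B, σ, h1, h2, fun v => (h3 v).trans hbound⟩

end FrN
end
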